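import Pool.Agent.H73.GWQ.Stmts

/-! Project GWQ, row C3Q (choice of the parameters). -/

set_option autoImplicit false

open Classical Filter

namespace GWQ

variable {ι G V : Type*} [Fintype ι] [Group G] (C : QCode ι G V)

theorem C3Q (S : Type*) [Fintype S] (h1 : R1QStmt C S) (h2 : R2QStmt C S) (h3 : C1QStmt C S)
    (h4 : C2QStmt C S) : C3QStmt C S := by
  intro e D hD hed wd k₀ hk₀ hwd hev
  obtain ⟨c, κ₁, A₁, hc, hκ₁0, hκ₁1, hA₁, hR1⟩ := h1 e wd k₀ hk₀ hwd hev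
  obtain ⟨D₁, hD₁⟩ : ∃ D₁ : ℕ, D₁ = D + C.δ := ⟨_, rfl⟩
  have hD₁1 : C.δ + 1 ≤ D₁ := by omega
  obtain ⟨κ₂, A₂, hκ₂0, hκ₂1, hA₂, hR2⟩ := h2 e wd k₀ D₁ hk₀ hwd hev
  have hstep : ∀ (g : G) (s : S), C.T.dist (C.f g) (C.f (g * e s)) ≤ D₁ := by
    intro g s
    have a1 := C.le2 g (g * e s)
    have a2 : C.d g (g * e s) = C.d 1 (e s) := by
      have := C.inv g 1 (e s)
      rwa [mul_one] at this
    have a3 := hed s
    change C.d 1 (e s) ≤ D at a3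
    omega
  have hC1 := h3 e D₁ (by omega) hstep κ₂ A₂ hκ₂0 hκ₂1 hA₂ hR2
  obtain ⟨m, hm1, hm⟩ : ∃ m : ℕ, 1 ≤ m ∧ 32 * (D₁ : ℝ) ≤ c * m := by
    obtain ⟨m, hm⟩ := exists_nat_ge (32 * (D₁ : ℝ) / c)
    refine ⟨m + 1, by omega, ?_⟩
    rw [div_le_iff₀ hc] at hm
    push_cast
    nlinarith
  obtain ⟨R₀, hR₀⟩ := exists_nat_ge (12 * (D : ℝ) / c)
  rw [div_le_iff₀ hc] at hR₀
  refine ⟨R₀ + 3, fun ε hε => ?_⟩
  have t1 : Tendsto (fun n : ℕ => A₁ * κ₁ ^ n) atTop (nhds 0) := by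
    have := (tendsto_pow_atTop_nhds_zero_of_lt_one hκ₁0.le hκ₁1).const_mul A₁
    simpa using this
  obtain ⟨B, hB⟩ : ∃ B : ℝ, B = ((D * m + C.δ + 1 : ℕ) : ℝ) ^ 2 * ((m + 1 : ℕ) : ℝ) ^ 2 * A₂ :=
    ⟨_, rfl⟩
  have hB0 : 0 ≤ B := by rw [hB]; positivity
  have t2 : Tendsto (fun n : ℕ => B * ((n : ℝ) ^ 4 * κ₂ ^ n)) atTop (nhds 0) := by
    have := (tendsto_pow_const_mul_const_pow_of_abs_lt_one 4 (r := κ₂)
      (by rw [abs_of_pos hκ₂0]; exact hκ₂1)).const_mul B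
    simpa using this
  obtain ⟨n, hn1, hn2, hn⟩ := ((t1.eventually_lt_const hε).and
    ((t2.eventually_lt_const hε).and (eventually_ge_atTop 2))).exists
  obtain ⟨L, hL⟩ : ∃ L : ℕ, L = m * n := ⟨_, rfl⟩
  have hLn : n ≤ L := by rw [hL]; exact Nat.le_mul_of_pos_left n hm1
  have hLr : (L : ℝ) = m * n := by rw [hL]; push_cast; ring
  obtain ⟨N, hN⟩ : ∃ N : ℕ, N = ⌊c * L⌋₊ := ⟨_, rfl⟩
  have hX0 : 0 ≤ c * (L : ℝ) := by positivity
  have hNle : (N : ℝ) ≤ c * L := by rw [hN]; exact Nat.floor_le hX0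
  have hNlt : c * L < (N : ℝ) + 1 := by rw [hN]; exact Nat.lt_floor_add_one _
  have hNge : 32 * D₁ * n ≤ N := by
    rw [hN]
    apply Nat.le_floor
    push_cast
    rw [hLr]
    have : (0 : ℝ) ≤ n := Nat.cast_nonneg n
    nlinarith
  have hDn : 2 * D₁ ≤ D₁ * n := by nlinarith
  obtain ⟨W, hW⟩ : ∃ W : ℕ, W = D₁ * n := ⟨_, rfl⟩
  have hNge' : 32 * W ≤ N := by rw [hW, ← mul_assoc]; exact hNge
  rw [← hW] at hDn
  obtain ⟨c₁, hc₁⟩ : ∃ c₁ : ℕ, c₁ = N - C.δ := ⟨_, rfl⟩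
  obtain ⟨θ, hθ⟩ : ∃ θ : ℕ, θ = c₁ / 8 := ⟨_, rfl⟩
  have hc₁N : c₁ + C.δ = N := by omega
  have hθδ : W ≤ θ - 4 * C.δ := by omega
  have hexp : n ≤ (θ - 4 * C.δ) / D₁ := by
    rw [Nat.le_div_iff_mul_le (by omega), mul_comm, ← hW]
    exact hθδ
  have hqL : (0 : ℝ) ≤ (Fintype.card S : ℝ) ^ L := by positivity
  refine ⟨L, c₁, θ, by omega, by omega, by omega, by omega, ?_, ?_, ?_⟩
  · have b1 : 6 * (D * L) ≤ R₀ * c₁ := by
      have b2 : (12 : ℝ) * D * L ≤ R₀ * (c * L) := by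
        have : (0 : ℝ) ≤ L := Nat.cast_nonneg L
        nlinarith
      have b3 : c * L ≤ 2 * (c₁ : ℝ) := by
        have b4 : N + 1 ≤ 2 * c₁ := by omega
        have b5 : (N : ℝ) + 1 ≤ 2 * c₁ := by exact_mod_cast b4
        linarith
      have b6 : (R₀ : ℝ) * (c * L) ≤ R₀ * (2 * c₁) :=
        mul_le_mul_of_nonneg_left b3 (Nat.cast_nonneg _)
      have b7 : (6 * (D * L) : ℝ) ≤ R₀ * c₁ := by linarith
      exact_mod_cast b7
    have b8 : 6 * C.δ ≤ c₁ := by omega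
    have b9 : (R₀ + 3) * c₁ = R₀ * c₁ + 3 * c₁ := by ring
    rw [b9]
    omega
  · have a1 : GWP.wsum L (fun b : List S => if C.nm (GWP.ev e b) < c₁ + C.δ then (1 : ℝ) else 0) ≤
        GWP.wsum L (fun z : List S =>
          if (C.nm (GWP.ev e z) : ℝ) < c * L then (1 : ℝ) else 0) := by
      apply GWP.wsum_le
      intro w _
      by_cases hw : C.nm (GWP.ev e w) < c₁ + C.δ
      · have hw' : (C.nm (GWP.ev e w) : ℝ) < c * L := by
          rw [hc₁N] at hw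
          have : (C.nm (GWP.ev e w) : ℝ) < N := by exact_mod_cast hw
          linarith
        rw [if_pos hw, if_pos hw']
      · rw [if_neg hw]
        split_ifs
        · exact zero_le_one
        · exact le_rfl
    refine a1.trans ((hR1 L).trans (mul_le_mul_of_nonneg_right ?_ hqL))
    refine le_trans (mul_le_mul_of_nonneg_left ?_ hA₁.le) hn1.le
    exact pow_le_pow_of_le_one hκ₁0.le hκ₁1.le hLn
  · intro x hx
    have hBB := h4 e L (θ - 2 * C.δ)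
      ((L + 1) ^ 2 * A₂ * κ₂ ^ ((θ - 4 * C.δ) / D₁) * (Fintype.card S : ℝ) ^ L)
      (by positivity) (by omega)
      (fun Q P hQP => hC1 L (θ - 4 * C.δ) Q P (by omega) (by omega)) x
    refine hBB.trans ?_
    have d1 : C.T.dist (C.f 1) (C.f x) + 1 ≤ (D * m + C.δ + 1) * n := by
      have d2 := C.le2 1 x
      change C.d 1 x ≤ D * L at hx
      have d3 : (D * m + C.δ + 1) * n = D * L + C.δ * n + n := by rw [hL]; ring
      have d4 : C.δ * 1 ≤ C.δ * n := Nat.mul_le_mul_left _ (by omega)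
      rw [d3]
      omega
    have d5 : (C.T.dist (C.f 1) (C.f x) : ℝ) + 1 ≤ ((D * m + C.δ + 1 : ℕ) : ℝ) * n := by
      exact_mod_cast d1
    have d6 : (L : ℝ) + 1 ≤ ((m + 1 : ℕ) : ℝ) * n := by
      have : L + 1 ≤ (m + 1) * n := by rw [hL]; nlinarith
      exact_mod_cast this
    have d7 : κ₂ ^ ((θ - 4 * C.δ) / D₁) ≤ κ₂ ^ n := pow_le_pow_of_le_one hκ₂0.le hκ₂1.le hexp
    have d8 : (0 : ℝ) ≤ (C.T.dist (C.f 1) (C.f x) : ℝ) + 1 := by positivity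
    have d9 : (0 : ℝ) ≤ (L : ℝ) + 1 := by positivity
    calc ((C.T.dist (C.f 1) (C.f x) : ℝ) + 1) ^ 2 *
          ((L + 1) ^ 2 * A₂ * κ₂ ^ ((θ - 4 * C.δ) / D₁) * (Fintype.card S : ℝ) ^ L)
        ≤ (((D * m + C.δ + 1 : ℕ) : ℝ) * n) ^ 2 *
          ((((m + 1 : ℕ) : ℝ) * n) ^ 2 * A₂ * κ₂ ^ n * (Fintype.card S : ℝ) ^ L) := by
          gcongr
      _ = (B * ((n : ℝ) ^ 4 * κ₂ ^ n)) * (Fintype.card S : ℝ) ^ L := by rw [hB]; ring
      _ ≤ ε * (Fintype.card S : ℝ) ^ L := mul_le_mul_of_nonneg_right hn2.le hqL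

end GWQ
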